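import Pool.Agent.Helper54.FP.Inst

/-!
# FP-1: the matrices `U(u)`
-/

set_option autoImplicit false
set_option linter.unusedVariables false
set_option linter.unusedSectionVars false
open scoped Pointwise

namespace Pool.Agent.Helper54.FP

section UmatSec
variable {p : ℕ} [Fact p.Prime] {G : Type} [Group G] [Fintype G] [DecidableEq G]

/-- the map `ZMod p → S` -/
private def umat_κ (p : ℕ) (S : Type) [CommRing S] [CharP S p] : ZMod p →+* S :=
  ZMod.castHom (dvd_refl p) S

private theorem umat_κ_nat (S : Type) [CommRing S] [CharP S p] (a : ℕ) :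
    umat_κ p S (a : ZMod p) = (a : S) := map_natCast _ a

private theorem umat_pred_ne : p - 1 ≠ 0 := by
  have := (Fact.out : p.Prime).two_le
  omega

private theorem umat_card_pow (x : ZMod p) (hx : x ≠ 0) : x ^ (p - 1) = 1 :=
  ZMod.pow_card_sub_one_eq_one hx

/-- the convolution identity, as an identity of polynomials over a domain -/
private theorem umat_poly (S : Type) [CommRing S] [IsDomain S] [CharP S p] (y : S) (c : ZMod p) :
    ∑ a : ZMod p, (1 - (Polynomial.X - Polynomial.C (umat_κ p S a)) ^ (p - 1)) *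
        Polynomial.C (1 - (y - umat_κ p S (c - a)) ^ (p - 1)) =
      (1 - (Polynomial.X + Polynomial.C (y - umat_κ p S c)) ^ (p - 1) : Polynomial S) := by
  rw [← sub_eq_zero]
  have hinj : Function.Injective (umat_κ p S) := (umat_κ p S).injective
  refine Polynomial.eq_zero_of_natDegree_lt_card_of_eval_eq_zero _ hinj ?_ ?_
  · intro x
    rw [Polynomial.eval_sub, Polynomial.eval_finsetSum, Finset.sum_eq_single x]
    · simp only [Polynomial.eval_mul, Polynomial.eval_sub, Polynomial.eval_one,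
        Polynomial.eval_pow, Polynomial.eval_X, Polynomial.eval_C, Polynomial.eval_add]
      rw [sub_self, zero_pow umat_pred_ne, sub_zero, one_mul, map_sub]
      ring
    · intro a _ hax
      simp only [Polynomial.eval_mul, Polynomial.eval_sub, Polynomial.eval_one,
        Polynomial.eval_pow, Polynomial.eval_X, Polynomial.eval_C]
      rw [← map_sub, ← map_pow, umat_card_pow _ (sub_ne_zero.2 (Ne.symm hax)), map_one, sub_self,
        zero_mul]
    · intro h
      exact absurd (Finset.mem_univ x) h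
  · rw [ZMod.card]
    have hp := (Fact.out : p.Prime).two_le
    have h1 : ∀ z : S, (1 - (Polynomial.X - Polynomial.C z) ^ (p - 1)).natDegree ≤ p - 1 := by
      intro z
      refine (Polynomial.natDegree_sub_le _ _).trans (max_le ?_ ?_)
      · rw [Polynomial.natDegree_one]; exact Nat.zero_le _
      · refine Polynomial.natDegree_pow_le.trans ?_
        rw [Polynomial.natDegree_X_sub_C, mul_one]
    have h2 : (1 - (Polynomial.X + Polynomial.C (y - umat_κ p S c)) ^ (p - 1) :
        Polynomial S).natDegree ≤ p - 1 := by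
      refine (Polynomial.natDegree_sub_le _ _).trans (max_le ?_ ?_)
      · rw [Polynomial.natDegree_one]; exact Nat.zero_le _
      · refine Polynomial.natDegree_pow_le.trans ?_
        rw [Polynomial.natDegree_X_add_C, mul_one]
    have h3 : (∑ a : ZMod p, (1 - (Polynomial.X - Polynomial.C (umat_κ p S a)) ^ (p - 1)) *
        Polynomial.C (1 - (y - umat_κ p S (c - a)) ^ (p - 1))).natDegree ≤ p - 1 := by
      refine Polynomial.natDegree_sum_le_of_forall_le _ _ fun a _ => ?_
      exact (Polynomial.natDegree_mul_C_le _ _).trans (h1 _)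
    have h4 := (Polynomial.natDegree_sub_le
      (∑ a : ZMod p, (1 - (Polynomial.X - Polynomial.C (umat_κ p S a)) ^ (p - 1)) *
        Polynomial.C (1 - (y - umat_κ p S (c - a)) ^ (p - 1)))
      (1 - (Polynomial.X + Polynomial.C (y - umat_κ p S c)) ^ (p - 1))).trans (max_le h3 h2)
    omega

private theorem umat_conv_domain (S : Type) [CommRing S] [IsDomain S] [CharP S p] (x y : S)
    (c : ZMod p) :
    ∑ a : ZMod p, (1 - (x - umat_κ p S a) ^ (p - 1)) *
        (1 - (y - umat_κ p S (c - a)) ^ (p - 1)) =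
      1 - (x + y - umat_κ p S c) ^ (p - 1) := by
  have h := congrArg (Polynomial.eval x) (umat_poly (p := p) S y c)
  rw [Polynomial.eval_finsetSum] at h
  simp only [Polynomial.eval_mul, Polynomial.eval_sub, Polynomial.eval_one,
    Polynomial.eval_pow, Polynomial.eval_X, Polynomial.eval_C, Polynomial.eval_add] at h
  rw [h]
  ring

/-- the convolution identity in a ring of characteristic `p` -/
private theorem umat_conv (S : Type) [CommRing S] [CharP S p] (x y : S) (c : ZMod p) :
    ∑ a : ZMod p, (1 - (x - umat_κ p S a) ^ (p - 1)) *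
        (1 - (y - umat_κ p S (c - a)) ^ (p - 1)) =
      1 - (x + y - umat_κ p S c) ^ (p - 1) := by
  have h := umat_conv_domain (p := p) (MvPolynomial (Fin 2) (ZMod p))
    (MvPolynomial.X 0) (MvPolynomial.X 1) c
  have h2 := congrArg (MvPolynomial.eval₂Hom (umat_κ p S) ![x, y]) h
  have h3 : ∀ a : ZMod p, MvPolynomial.eval₂Hom (umat_κ p S) ![x, y]
      (umat_κ p (MvPolynomial (Fin 2) (ZMod p)) a) = umat_κ p S a := by
    intro a
    exact congrArg (fun f : ZMod p →+* S => f a)
      (RingHom.ext_zmod ((MvPolynomial.eval₂Hom (umat_κ p S) ![x, y]).comp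
        (umat_κ p (MvPolynomial (Fin 2) (ZMod p)))) (umat_κ p S))
  simpa only [map_sum, map_mul, map_sub, map_one, map_pow, map_add, h3,
    MvPolynomial.coe_eval₂Hom, MvPolynomial.eval₂_X, Matrix.cons_val_zero,
    Matrix.cons_val_one] using h2

/-- sums over `range p` and over `ZMod p` -/
private theorem umat_sum {S : Type} [AddCommMonoid S] (f : ℕ → S) (g : ZMod p → S)
    (h : ∀ a : ℕ, a < p → f a = g (a : ZMod p)) :
    ∑ a ∈ Finset.range p, f a = ∑ a : ZMod p, g a := by
  haveI : NeZero p := ⟨(Fact.out : p.Prime).ne_zero⟩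
  refine Finset.sum_bij' (fun a _ => (a : ZMod p)) (fun a _ => a.val) ?_ ?_ ?_ ?_ ?_
  · intro a _; exact Finset.mem_univ _
  · intro a _; exact Finset.mem_range.2 (ZMod.val_lt a)
  · intro a ha; exact ZMod.val_cast_of_lt (Finset.mem_range.1 ha)
  · intro a _; exact ZMod.natCast_zmod_val a
  · intro a ha; exact h a (Finset.mem_range.1 ha)

theorem umat_zero {Ω : Type} [CommRing Ω] [CharP Ω p] (τ : G) : Umat p τ (0 : Ω) = 1 := by
  ext i j
  have hp := (Fact.out : p.Prime)
  rw [Umat, Finset.sum_eq_single 0]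
  · rw [pow_zero, one_mul, Nat.cast_zero, sub_zero, zero_pow umat_pred_ne, sub_zero,
      Matrix.one_apply]
  · intro a ha ha0
    have h1 : (a : ZMod p) ≠ 0 := by
      rw [Ne, ZMod.natCast_eq_zero_iff]
      intro h
      exact ha0 (Nat.eq_zero_of_dvd_of_lt h (Finset.mem_range.1 ha))
    have h2 : (0 - (a : Ω)) ^ (p - 1) = 1 := by
      rw [← umat_κ_nat (p := p) Ω a, ← map_zero (umat_κ p Ω), ← map_sub, ← map_pow,
        umat_card_pow _ (by rwa [zero_sub, neg_ne_zero]), map_one]
    rw [h2, sub_self, ite_self]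
  · intro h
    exact absurd (Finset.mem_range.2 hp.pos) h

private theorem umat_pow_val (τ : G) (hτ : τ ^ p = 1) (a b : ℕ) (h : (a : ZMod p) = b) :
    τ ^ a = τ ^ b := by
  have h1 : a ≡ b [MOD p] := (ZMod.natCast_eq_natCast_iff a b p).1 h
  exact pow_eq_pow_iff_modEq.2 (h1.of_dvd (orderOf_dvd_of_pow_eq_one hτ))

/-- `U(u)` as a sum over `ZMod p` -/
private theorem umat_eq {Ω : Type} [CommRing Ω] [CharP Ω p] (τ : G) (hτ : τ ^ p = 1) (u : Ω)
    (i j : G) :
    Umat p τ u i j = ∑ a : ZMod p,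
      if i = τ ^ a.val * j then 1 - (u - umat_κ p Ω a) ^ (p - 1) else 0 := by
  haveI : NeZero p := ⟨(Fact.out : p.Prime).ne_zero⟩
  refine umat_sum _ _ fun a ha => ?_
  rw [ZMod.val_cast_of_lt ha, umat_κ_nat]

theorem umat_add {Ω : Type} [CommRing Ω] [CharP Ω p] (τ : G) (hτ : τ ^ p = 1) (u v : Ω) :
    Umat p τ (u + v) = Umat p τ u * Umat p τ v := by
  haveI : NeZero p := ⟨(Fact.out : p.Prime).ne_zero⟩
  ext i j
  rw [Matrix.mul_apply]
  have h1 : ∀ k : G, Umat p τ u i k * Umat p τ v k j = ∑ a : ZMod p, ∑ b : ZMod p,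
      if k = τ ^ b.val * j then (if i = τ ^ a.val * k then
        (1 - (u - umat_κ p Ω a) ^ (p - 1)) * (1 - (v - umat_κ p Ω b) ^ (p - 1)) else 0) else 0 := by
    intro k
    rw [umat_eq τ hτ, umat_eq τ hτ, Finset.sum_mul_sum]
    refine Finset.sum_congr rfl fun a _ => Finset.sum_congr rfl fun b _ => ?_
    split_ifs <;> simp
  rw [Finset.sum_congr rfl fun k _ => h1 k, Finset.sum_comm]
  have h2 : ∀ a : ZMod p, (∑ k : G, ∑ b : ZMod p,
      if k = τ ^ b.val * j then (if i = τ ^ a.val * k then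
        (1 - (u - umat_κ p Ω a) ^ (p - 1)) * (1 - (v - umat_κ p Ω b) ^ (p - 1)) else 0) else 0)
      = ∑ c : ZMod p, if i = τ ^ c.val * j then
        (1 - (u - umat_κ p Ω a) ^ (p - 1)) * (1 - (v - umat_κ p Ω (c - a)) ^ (p - 1)) else 0 := by
    intro a
    rw [Finset.sum_comm]
    refine Fintype.sum_equiv (Equiv.addRight a) _ _ fun b => ?_
    rw [Finset.sum_ite_eq' Finset.univ, if_pos (Finset.mem_univ _), Equiv.coe_addRight]
    have h3 : τ ^ a.val * (τ ^ b.val * j) = τ ^ (b + a).val * j := by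
      rw [← mul_assoc, ← pow_add]
      congr 1
      apply umat_pow_val τ hτ
      rw [Nat.cast_add, ZMod.natCast_zmod_val, ZMod.natCast_zmod_val, ZMod.natCast_zmod_val,
        add_comm]
    rw [h3, add_sub_cancel_right]
  rw [Finset.sum_congr rfl fun a _ => h2 a, Finset.sum_comm, umat_eq τ hτ]
  refine Finset.sum_congr rfl fun c _ => ?_
  split_ifs with h
  · rw [umat_conv]
  · rw [Finset.sum_const_zero]

theorem actM_umat {Ω : Type} [CommRing Ω] [CharP Ω p] (τ : G) (hτ : τ ^ p = 1) (u : Ω) :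
    actM τ (Umat p τ u) = Umat p τ (u + 1) := by
  ext i j
  rw [actM, Umat, Umat]
  set F : ℕ → Ω := fun a => if i = τ ^ a * j then 1 - (u + 1 - (a : Ω)) ^ (p - 1) else 0 with hF
  have h1 : ∀ a : ℕ, (if i = τ ^ a * (τ * j) then 1 - (u - (a : Ω)) ^ (p - 1) else 0)
      = F (a + 1) := by
    intro a
    simp only [hF]
    rw [← mul_assoc, ← pow_succ, Nat.cast_succ]
    congr 2
    congr 1
    ring
  rw [Finset.sum_congr rfl fun a _ => h1 a]
  have h2 := Finset.sum_range_succ' F p
  have h3 := Finset.sum_range_succ F p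
  have h4 : F p = F 0 := by
    simp only [hF]
    rw [hτ, pow_zero, CharP.cast_eq_zero, Nat.cast_zero]
  rw [h3, h4] at h2
  exact (add_right_cancel h2).symm

private theorem umat_frob_cast {Ω : Type} [CommRing Ω] [CharP Ω p] (a : ℕ) :
    (a : Ω) ^ p = a := by
  rw [← umat_κ_nat (p := p) Ω a, ← map_pow, ZMod.pow_card]

theorem umat_frob {Ω : Type} [CommRing Ω] [CharP Ω p] (τ : G) (u : Ω) :
    (Umat p τ u).map (fun y => y ^ p) = Umat p τ (u ^ p) := by
  have hp := (Fact.out : p.Prime)
  ext i j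
  rw [Matrix.map_apply, Umat, Umat, sum_pow_char]
  refine Finset.sum_congr rfl fun a _ => ?_
  split_ifs
  · rw [sub_pow_char, one_pow, ← pow_mul, mul_comm, pow_mul, sub_pow_char, umat_frob_cast]
  · exact zero_pow hp.ne_zero

theorem umat_map {Ω Ω' : Type} [CommRing Ω] [CommRing Ω'] (δ : Ω →+* Ω') (τ : G) (u : Ω) :
    (Umat p τ u).map δ = Umat p τ (δ u) := by
  ext i j
  rw [Matrix.map_apply, Umat, Umat, map_sum]
  refine Finset.sum_congr rfl fun a _ => ?_
  split_ifs
  · rw [map_sub, map_one, map_pow, map_sub, map_natCast]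
  · exact map_zero δ

theorem umat_small {Ω : Type} [CommRing Ω] [CharP Ω p] (τ : G) (ε : Ω) :
    ∃ M : Matrix G G Ω, Umat p τ ε = 1 + ε • M := by
  have h1 : ∀ a : ℕ, ∃ q : Ω, (ε - (a : Ω)) ^ (p - 1) - (0 - (a : Ω)) ^ (p - 1) = ε * q := by
    intro a
    obtain ⟨q, hq⟩ := sub_dvd_pow_sub_pow (ε - (a : Ω)) (0 - (a : Ω)) (p - 1)
    refine ⟨q, ?_⟩
    rw [hq]
    ring
  choose q hq using h1
  refine ⟨fun i j => ∑ a ∈ Finset.range p, if i = τ ^ a * j then - q a else 0, ?_⟩
  rw [← umat_zero (p := p) τ]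
  ext i j
  rw [Matrix.add_apply, Matrix.smul_apply, smul_eq_mul, Umat, Umat, Finset.mul_sum,
    ← Finset.sum_add_distrib]
  refine Finset.sum_congr rfl fun a _ => ?_
  split_ifs
  · rw [mul_neg, ← hq a]
    ring
  · simp

end UmatSec

end Pool.Agent.Helper54.FP
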